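import Pool.Agent.Work.MP_bec1e1_lv_helper15.Tools0
import Pool.Agent.Work.MP_bec1e1_E_helper47.CONV
import Pool.Agent.Work.MP_bec1e1_pr_h13.FINAL
import Pool.Agent.Work.MP_bec1e1_pr_h13.VUP
import Pool.Agent.Work.MP_bec1e1_pr_h13.LcsDef

/-!
# GLUE: `not Rigid` gives the linear variance (frozen statement S19609)
-/

set_option autoImplicit false

open Filter
open scoped BigOperators

namespace Pool.Agent.LCSV

open LCSE

/-- the variance in the frozen statement -/
theorem variance_eq_VarL (k n : ℕ) :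
    ProbabilityTheory.variance
        (fun p : (Fin n → Fin (k + 2)) × (Fin n → Fin (k + 2)) =>
          (((sSup {m : ℕ | ∃ l : List (Fin (k + 2)), l.length = m ∧
              l.Sublist (List.ofFn p.1) ∧ l.Sublist (List.ofFn p.2)}) : ℕ) : ℝ))
        (PMF.uniformOfFintype
          ((Fin n → Fin (k + 2)) × (Fin n → Fin (k + 2)))).toMeasure = VarL (k + 2) n := by
  rw [ProbabilityTheory.variance_eq_integral (measurable_of_countable _).aemeasurable]
  have h1 := integral_uniform_eq (k + 2) n (fun x y => (L x y : ℝ))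
  have h2 := integral_uniform_eq (k + 2) n
    (fun x y => ((L x y : ℝ) - F (k + 2) n n) ^ 2)
  have h3 : (∫ p : (Fin n → Fin (k + 2)) × (Fin n → Fin (k + 2)),
      (((sSup {m : ℕ | ∃ l : List (Fin (k + 2)), l.length = m ∧
              l.Sublist (List.ofFn p.1) ∧ l.Sublist (List.ofFn p.2)}) : ℕ) : ℝ)
      ∂(PMF.uniformOfFintype ((Fin n → Fin (k + 2)) × (Fin n → Fin (k + 2)))).toMeasure) =
      F (k + 2) n n := h1
  rw [h3]
  exact h2

theorem VarL_nonneg (k n : ℕ) : 0 ≤ VarL k n :=
  Ex_nonneg fun _ _ => Ex_nonneg fun _ _ => sq_nonneg _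

theorem VarL_le (k n : ℕ) : VarL (k + 2) n ≤ 2 * n := by
  rw [← variance_eq_VarL, LCS13.FinalB.variance_eq LCS13.stmt_LcsDef]
  exact LCS13.stmt_VUp (k + 2) n (by omega)

/-- GLUE -/
theorem stmt_GLUE : Stmt_GLUE := by
  intro h k
  simp only [variance_eq_VarL k]
  have h1 := h (k + 2) (by omega)
  unfold Rigid at h1
  push Not at h1
  obtain ⟨ε, hε, N0, hN⟩ := h1
  refine ⟨?_, ?_⟩
  · refine Asymptotics.IsBigO.of_bound 2 (Eventually.of_forall fun n => ?_)
    rw [Real.norm_of_nonneg (VarL_nonneg _ n), Real.norm_of_nonneg (by positivity)]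
    exact VarL_le k n
  · refine Asymptotics.IsBigO.of_bound (1 / ε) ?_
    filter_upwards [eventually_ge_atTop N0] with n hn
    have h2 := hN n hn
    rw [Real.norm_of_nonneg (VarL_nonneg _ n), Real.norm_of_nonneg (by positivity)]
    rw [one_div, ← div_eq_inv_mul, le_div_iff₀ hε, mul_comm]
    exact h2.le

end Pool.Agent.LCSV
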