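import Pool.Agent.Work.MP_bec1e1_lv_helper15.Tools0
import Pool.Agent.Work.MP_bec1e1_E_helper47.GAM

/-!
# The shape function `Phi` (block PHI1)
-/

set_option autoImplicit false
set_option maxHeartbeats 400000

open Filter Topology
open scoped BigOperators

namespace Pool.Agent.LCSV

open Pool.Agent.LCSE

variable {k : ℕ}

/-! ### facts on `F` -/

lemma L_append_le {α : Type*} (u v y : List α) : L (u ++ v) y ≤ L u y + v.length := by
  obtain ⟨g, _, h⟩ := L_append_split u v y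
  rw [h]
  exact Nat.add_le_add (L_mono (List.Sublist.refl _) (List.take_sublist _ _)) (L_le_left _ _)

lemma F_nonneg (a b : ℕ) : 0 ≤ F k a b :=
  Ex_nonneg fun _ _ => Ex_nonneg fun _ _ => Nat.cast_nonneg _

lemma F_comm (a b : ℕ) : F k a b = F k b a := by
  unfold F
  rw [Ex_comm]
  exact Ex_congr fun x _ => Ex_congr fun y _ => by rw [L_comm]

lemma F_le_left (hk : 0 < k) (a b : ℕ) : F k a b ≤ a := by
  refine Ex_le_const hk fun x hx => Ex_le_const hk fun y _ => ?_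
  exact_mod_cast hx ▸ L_le_left x y

lemma F_le_right (hk : 0 < k) (a b : ℕ) : F k a b ≤ b := by
  rw [F_comm]; exact F_le_left hk b a

lemma F_add_left (hk : 0 < k) (a c b : ℕ) : F k a b ≤ F k (a + c) b := by
  unfold F
  rw [Ex_append]
  refine Ex_mono fun u _ => const_le_Ex hk fun v _ => Ex_mono fun y _ => ?_
  exact_mod_cast L_mono (List.sublist_append_left u v) (List.Sublist.refl y)

lemma F_mono (hk : 0 < k) {a a' b b' : ℕ} (ha : a ≤ a') (hb : b ≤ b') :
    F k a b ≤ F k a' b' := by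
  obtain ⟨c, rfl⟩ := Nat.exists_eq_add_of_le ha
  obtain ⟨d, rfl⟩ := Nat.exists_eq_add_of_le hb
  calc F k a b ≤ F k (a + c) b := F_add_left hk a c b
    _ = F k b (a + c) := F_comm _ _
    _ ≤ F k (b + d) (a + c) := F_add_left hk b d _
    _ = F k (a + c) (b + d) := F_comm _ _

lemma F_lip (hk : 0 < k) (a c b : ℕ) : F k (a + c) b ≤ F k a b + c := by
  unfold F
  rw [Ex_append]
  have h : ∀ u v : List (Fin k), v.length = c →
      Ex k b (fun y => (L (u ++ v) y : ℝ)) ≤ Ex k b (fun y => (L u y : ℝ)) + c := by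
    intro u v hv
    have h1 : Ex k b (fun y => (L (u ++ v) y : ℝ)) ≤ Ex k b (fun y => (L u y : ℝ) + c) :=
      Ex_mono fun y _ => by exact_mod_cast hv ▸ L_append_le u v y
    rwa [Ex_add, Ex_const hk] at h1
  calc Ex k a (fun u => Ex k c fun v => Ex k b fun y => (L (u ++ v) y : ℝ))
      ≤ Ex k a (fun u => Ex k b (fun y => (L u y : ℝ)) + c) :=
        Ex_mono fun u _ => Ex_le_const hk fun v hv => h u v hv
    _ = _ := by rw [Ex_add, Ex_const hk]

lemma F_superadd (a b a' b' : ℕ) : F k a b + F k a' b' ≤ F k (a + a') (b + b') := by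
  rcases Nat.eq_zero_or_pos k with rfl | hk
  · -- no words of positive length
    have h : ∀ n f, Ex 0 n f ≤ 0 ∨ n = 0 := by
      intro n f
      cases n with
      | zero => exact Or.inr rfl
      | succ n => left; rw [Ex_succ]; simp
    have h0 : ∀ a b : ℕ, F 0 a b = 0 := by
      intro a b
      rcases h a (fun x => Ex 0 b fun y => (L x y : ℝ)) with h1 | rfl
      · exact le_antisymm h1 (F_nonneg a b)
      · rcases h b (fun y => (L ([] : List (Fin 0)) y : ℝ)) with h1 | rfl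
        · exact le_antisymm h1 (F_nonneg 0 b)
        · simp [F]
    simp [h0]
  have h1 : F k (a + a') (b + b') = Ex k a (fun x => Ex k b (fun y => Ex k a' (fun x' =>
      Ex k b' (fun y' => (L (x ++ x') (y ++ y') : ℝ))))) := by
    unfold F
    rw [Ex_append]
    refine Ex_congr fun x _ => ?_
    rw [Ex_comm, Ex_append]
    refine Ex_congr fun y _ => ?_
    rw [Ex_comm]
  have h2 : F k a b + F k a' b' = Ex k a (fun x => Ex k b (fun y => (L x y : ℝ) + F k a' b')) := by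
    have : ∀ x : List (Fin k), Ex k b (fun y => (L x y : ℝ) + F k a' b') =
        Ex k b (fun y => (L x y : ℝ)) + F k a' b' := fun x => by rw [Ex_add, Ex_const hk]
    simp only [this]
    rw [Ex_add, Ex_const hk]
    rfl
  rw [h1, h2]
  refine Ex_mono fun x _ => Ex_mono fun y _ => ?_
  have h3 : (L x y : ℝ) + F k a' b' = Ex k a' (fun x' => Ex k b' (fun y' =>
      (L x y : ℝ) + (L x' y' : ℝ))) := by
    have : ∀ x' : List (Fin k), Ex k b' (fun y' => (L x y : ℝ) + (L x' y' : ℝ)) =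
        (L x y : ℝ) + Ex k b' (fun y' => (L x' y' : ℝ)) := fun x' => by rw [Ex_add, Ex_const hk]
    simp only [this]
    rw [Ex_add, Ex_const hk]
    rfl
  rw [h3]
  refine Ex_mono fun x' _ => Ex_mono fun y' _ => ?_
  exact_mod_cast L_append_ge x x' y y'

/-! ### the limit -/

lemma floor_mul_add_le (m n : ℕ) (a : ℝ) :
    ⌊(m : ℝ) * a⌋₊ + ⌊(n : ℝ) * a⌋₊ ≤ ⌊((m : ℝ) + n) * a⌋₊ := by
  rcases le_total 0 a with ha | ha
  · apply Nat.le_floor
    push_cast
    have h1 := Nat.floor_le (show 0 ≤ (m : ℝ) * a by positivity)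
    have h2 := Nat.floor_le (show 0 ≤ (n : ℝ) * a by positivity)
    linarith
  · rw [Nat.floor_of_nonpos (mul_nonpos_of_nonneg_of_nonpos (Nat.cast_nonneg m) ha),
      Nat.floor_of_nonpos (mul_nonpos_of_nonneg_of_nonpos (Nat.cast_nonneg n) ha)]
    exact Nat.zero_le _

lemma floor_add_floor_le {x y : ℝ} (hx : 0 ≤ x) (hy : 0 ≤ y) : ⌊x⌋₊ + ⌊y⌋₊ ≤ ⌊x + y⌋₊ := by
  apply Nat.le_floor
  push_cast
  linarith [Nat.floor_le hx, Nat.floor_le hy]

/-- the sequence of means in the direction `(a, b)` -/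
noncomputable def uF (k : ℕ) (a b : ℝ) (n : ℕ) : ℝ := F k ⌊(n : ℝ) * a⌋₊ ⌊(n : ℝ) * b⌋₊

lemma uF_nonneg (a b : ℝ) (n : ℕ) : 0 ≤ uF k a b n := F_nonneg _ _

lemma uF_superadd (hk : 0 < k) (a b : ℝ) (m n : ℕ) :
    uF k a b m + uF k a b n ≤ uF k a b (m + n) := by
  unfold uF
  refine (F_superadd _ _ _ _).trans ?_
  push_cast
  exact F_mono hk (floor_mul_add_le m n a) (floor_mul_add_le m n b)

lemma uF_le (hk : 0 < k) (a b : ℝ) (n : ℕ) : uF k a b n ≤ n * max a 0 := by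
  unfold uF
  refine (F_le_left hk _ _).trans ?_
  rcases le_total 0 a with ha | ha
  · rw [max_eq_left ha]
    exact Nat.floor_le (by positivity)
  · rw [Nat.floor_of_nonpos (mul_nonpos_of_nonneg_of_nonpos (Nat.cast_nonneg n) ha)]
    simp only [Nat.cast_zero]
    positivity

lemma Phi_eq (a b : ℝ) : Phi k a b = ⨆ n : ℕ, uF k a b (n + 1) / ((n : ℝ) + 1) := by
  unfold Phi uF
  push_cast
  rfl

lemma bdd_uF (hk : 0 < k) (a b : ℝ) :
    BddAbove (Set.range fun n : ℕ => uF k a b (n + 1) / ((n : ℝ) + 1)) := by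
  refine ⟨max a 0, ?_⟩
  rintro _ ⟨n, rfl⟩
  show uF k a b (n + 1) / ((n : ℝ) + 1) ≤ max a 0
  rw [div_le_iff₀ (by positivity)]
  have := uF_le hk a b (n + 1)
  push_cast at this
  linarith

lemma uF_div_le_Phi (hk : 0 < k) (a b : ℝ) (n : ℕ) : uF k a b n / n ≤ Phi k a b := by
  rw [Phi_eq]
  rcases Nat.eq_zero_or_pos n with rfl | hn
  · simp only [Nat.cast_zero, div_zero]
    exact le_trans (div_nonneg (uF_nonneg _ _ _) (by positivity)) (le_ciSup (bdd_uF hk a b) 0)
  · obtain ⟨m, rfl⟩ := Nat.exists_eq_add_of_lt hn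
    simp only [zero_add]
    have := le_ciSup (bdd_uF hk a b) m
    push_cast
    exact this

theorem Phi_lim' (hk : 0 < k) (a b : ℝ) :
    Tendsto (fun n : ℕ => uF k a b n / (n : ℝ)) atTop (𝓝 (Phi k a b)) := by
  have hsub : Subadditive (fun n => -uF k a b n) := by
    intro m n
    have := uF_superadd hk a b m n
    linarith
  have hbdd : BddBelow (Set.range fun n : ℕ => -uF k a b n / n) := by
    refine ⟨-Phi k a b, ?_⟩
    rintro _ ⟨n, rfl⟩
    have := uF_div_le_Phi hk a b n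
    show -Phi k a b ≤ -uF k a b n / n
    rw [neg_div]
    linarith
  have h1 := hsub.tendsto_lim hbdd
  have h2 : Tendsto (fun n : ℕ => uF k a b n / (n : ℝ)) atTop (𝓝 (-hsub.lim)) := by
    have := h1.neg
    simpa [neg_div] using this
  have h3 : -hsub.lim = Phi k a b := by
    apply le_antisymm
    · exact le_of_tendsto' h2 fun n => uF_div_le_Phi hk a b n
    · rw [Phi_eq]
      refine ciSup_le fun n => ?_
      have h4 := hsub.lim_le_div hbdd (Nat.succ_ne_zero n)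
      rw [Nat.succ_eq_add_one] at h4
      push_cast at h4
      rw [neg_div] at h4
      linarith
  rwa [h3] at h2

/-- limit along the reals -/
theorem Phi_lim_real (hk : 0 < k) (a b : ℝ) (ha : 0 ≤ a) (hb : 0 ≤ b) :
    Tendsto (fun R : ℝ => F k ⌊R * a⌋₊ ⌊R * b⌋₊ / R) atTop (𝓝 (Phi k a b)) := by
  have h1 := Phi_lim' hk a b
  have hf : Tendsto (fun R : ℝ => ⌊R⌋₊) atTop atTop := tendsto_nat_floor_atTop
  have h2 := h1.comp hf
  have h3 := (h1.comp (tendsto_add_atTop_nat 1)).comp hf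
  -- quotients
  have h4 : Tendsto (fun R : ℝ => (⌊R⌋₊ : ℝ) / R) atTop (𝓝 1) := tendsto_nat_floor_div_atTop
  have h5 : Tendsto (fun R : ℝ => ((⌊R⌋₊ : ℝ) + 1) / R) atTop (𝓝 1) := by
    have h6 : Tendsto (fun R : ℝ => (1 : ℝ) / R) atTop (𝓝 0) := by
      simpa using tendsto_inv_atTop_zero (𝕜 := ℝ)
    have := h4.add h6
    simp only [add_zero] at this
    refine this.congr fun R => ?_
    rw [add_div]
  have lo := h2.mul h4
  have up := h3.mul h5
  simp only [mul_one] at lo up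
  refine tendsto_of_tendsto_of_tendsto_of_le_of_le' lo up ?_ ?_
  · filter_upwards [eventually_ge_atTop (1 : ℝ)] with R hR
    have hR0 : 0 < R := by linarith
    have hfl : 1 ≤ ⌊R⌋₊ := Nat.le_floor (by simpa using hR)
    have hfl' : (0 : ℝ) < ⌊R⌋₊ := by exact_mod_cast hfl
    show uF k a b ⌊R⌋₊ / (⌊R⌋₊ : ℝ) * ((⌊R⌋₊ : ℝ) / R) ≤ _
    rw [div_mul_div_cancel₀ hfl'.ne']
    apply div_le_div_of_nonneg_right _ hR0.le
    unfold uF
    have h6 := Nat.floor_le hR0.le
    exact F_mono hk (Nat.floor_mono (mul_le_mul_of_nonneg_right h6 ha))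
      (Nat.floor_mono (mul_le_mul_of_nonneg_right h6 hb))
  · filter_upwards [eventually_ge_atTop (1 : ℝ)] with R hR
    have hR0 : 0 < R := by linarith
    have h7 : (0 : ℝ) < (⌊R⌋₊ : ℝ) + 1 := by positivity
    show _ ≤ uF k a b (⌊R⌋₊ + 1) / ((⌊R⌋₊ + 1 : ℕ) : ℝ) * (((⌊R⌋₊ : ℝ) + 1) / R)
    push_cast
    rw [div_mul_div_cancel₀ h7.ne']
    apply div_le_div_of_nonneg_right _ hR0.le
    unfold uF
    have h6 := (Nat.lt_floor_add_one R).le
    push_cast
    exact F_mono hk (Nat.floor_mono (mul_le_mul_of_nonneg_right h6 ha))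
      (Nat.floor_mono (mul_le_mul_of_nonneg_right h6 hb))

/-! ### the fields of `PhiFacts` -/

lemma Phi_nonneg (hk : 0 < k) (a b : ℝ) : 0 ≤ Phi k a b := by
  have := uF_div_le_Phi hk a b 1
  exact le_trans (div_nonneg (uF_nonneg _ _ _) (by positivity)) this

lemma Phi_mono (hk : 0 < k) {a a' b b' : ℝ} (ha : a ≤ a') (hb : b ≤ b') :
    Phi k a b ≤ Phi k a' b' := by
  refine le_of_tendsto_of_tendsto' (Phi_lim' hk a b) (Phi_lim' hk a' b') fun n => ?_
  apply div_le_div_of_nonneg_right _ (Nat.cast_nonneg n)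
  exact F_mono hk (Nat.floor_mono (mul_le_mul_of_nonneg_left ha (Nat.cast_nonneg n)))
      (Nat.floor_mono (mul_le_mul_of_nonneg_left hb (Nat.cast_nonneg n)))

lemma Phi_comm (a b : ℝ) : Phi k a b = Phi k b a := by
  unfold Phi
  simp only [F_comm (k := k) ⌊_ * a⌋₊]

lemma Phi_superadd (hk : 0 < k) (a b a' b' : ℝ) (ha : 0 ≤ a) (hb : 0 ≤ b) (ha' : 0 ≤ a')
    (hb' : 0 ≤ b') : Phi k a b + Phi k a' b' ≤ Phi k (a + a') (b + b') := by
  refine le_of_tendsto_of_tendsto' ((Phi_lim' hk a b).add (Phi_lim' hk a' b'))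
    (Phi_lim' hk (a + a') (b + b')) fun n => ?_
  rw [← add_div]
  apply div_le_div_of_nonneg_right _ (Nat.cast_nonneg n)
  unfold uF
  refine (F_superadd _ _ _ _).trans (F_mono hk ?_ ?_)
  · rw [mul_add]; exact floor_add_floor_le (by positivity) (by positivity)
  · rw [mul_add]; exact floor_add_floor_le (by positivity) (by positivity)

lemma Phi_lim (hk : 0 < k) (a b : ℝ) :
    Tendsto (fun n : ℕ => F k ⌊(n : ℝ) * a⌋₊ ⌊(n : ℝ) * b⌋₊ / (n : ℝ)) atTop (𝓝 (Phi k a b)) :=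
  Phi_lim' hk a b

lemma Phi_le_left (hk : 0 < k) (a b : ℝ) (ha : 0 ≤ a) : Phi k a b ≤ a := by
  refine le_of_tendsto' (Phi_lim' hk a b) fun n => ?_
  rcases Nat.eq_zero_or_pos n with rfl | hn
  · simpa using ha
  · rw [div_le_iff₀ (by exact_mod_cast hn)]
    have := uF_le hk a b n
    rw [max_eq_left ha] at this
    linarith

lemma F_le_Phi (hk : 0 < k) (a b : ℕ) : F k a b ≤ Phi k a b := by
  have := uF_div_le_Phi hk (a : ℝ) (b : ℝ) 1
  simpa [uF] using this

lemma Phi_zero_left (hk : 0 < k) (b : ℝ) : Phi k 0 b = 0 :=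
  le_antisymm (Phi_le_left hk 0 b le_rfl) (Phi_nonneg hk 0 b)

lemma Phi_zero_right (hk : 0 < k) (a : ℝ) : Phi k a 0 = 0 := by
  rw [Phi_comm]; exact Phi_zero_left hk a

lemma Phi_hom (hk : 0 < k) (t a b : ℝ) (ht : 0 ≤ t) (ha : 0 ≤ a) (hb : 0 ≤ b) :
    Phi k (t * a) (t * b) = t * Phi k a b := by
  rcases ht.eq_or_lt with rfl | ht
  · simp [Phi_zero_left hk]
  have h1 := Phi_lim_real hk (t * a) (t * b) (by positivity) (by positivity)
  have h2 := Phi_lim_real hk a b ha hb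
  have h3 : Tendsto (fun R : ℝ => R * t) atTop atTop := tendsto_id.atTop_mul_const ht
  have h4 := (h2.comp h3).mul_const t
  rw [mul_comm (Phi k a b)] at h4
  refine tendsto_nhds_unique h1 (h4.congr' ?_)
  filter_upwards [eventually_gt_atTop (0 : ℝ)] with R hR
  simp only [Function.comp]
  rw [mul_assoc, mul_assoc, div_mul_eq_mul_div, mul_div_mul_right _ _ ht.ne']

lemma Phi_lip (hk : 0 < k) (a b h : ℝ) (ha : 0 ≤ a) (hh : 0 ≤ h) :
    Phi k (a + h) b ≤ Phi k a b + h := by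
  have h1 := Phi_lim' hk (a + h) b
  have h2 := Phi_lim' hk a b
  have h3 : Tendsto (fun n : ℕ => (1 : ℝ) / n) atTop (𝓝 0) := tendsto_one_div_atTop_nhds_zero_nat
  have h4 : Tendsto (fun n : ℕ => uF k a b n / (n : ℝ) + h + 1 / n) atTop
      (𝓝 (Phi k a b + h + 0)) := (h2.add_const h).add h3
  rw [add_zero] at h4
  refine le_of_tendsto_of_tendsto h1 h4 ?_
  filter_upwards [eventually_ge_atTop 1] with n hn
  have hn0 : (0 : ℝ) < n := by exact_mod_cast hn
  rw [div_le_iff₀ hn0]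
  have e : (uF k a b n / (n : ℝ) + h + 1 / n) * n = uF k a b n + (n * h + 1) := by
    field_simp
    ring
  rw [e]
  unfold uF
  obtain ⟨c, hc⟩ := Nat.exists_eq_add_of_le
    (show ⌊(n : ℝ) * a⌋₊ ≤ ⌊(n : ℝ) * (a + h)⌋₊ from
      Nat.floor_mono (mul_le_mul_of_nonneg_left (by linarith) hn0.le))
  rw [hc]
  refine (F_lip hk _ c _).trans ?_
  have hc' : (c : ℝ) ≤ n * h + 1 := by
    have h5 : (⌊(n : ℝ) * (a + h)⌋₊ : ℝ) ≤ n * (a + h) := Nat.floor_le (by positivity)
    have h6 : (n : ℝ) * a < ⌊(n : ℝ) * a⌋₊ + 1 := Nat.lt_floor_add_one _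
    rw [hc] at h5
    push_cast at h5
    linarith
  linarith

lemma Phi_diag (hk : 0 < k) (t : ℝ) (ht : 0 ≤ t) : Phi k t t = gam k * t := by
  have := Phi_hom hk t 1 1 ht zero_le_one zero_le_one
  rw [mul_one] at this
  rw [this, mul_comm]
  rfl

lemma Phi_line (hk : 0 < k) (a b : ℝ) (ha : 0 ≤ a) (hb : 0 ≤ b) :
    Phi k a b ≤ al k * (a + b) := by
  have h1 := Phi_superadd hk a b b a ha hb hb ha
  rw [Phi_comm b a, add_comm b a, Phi_diag hk (a + b) (by positivity)] at h1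
  unfold al
  linarith

lemma gam_eq (hk : 0 < k) : Tendsto (fun n : ℕ => EL k n / n) atTop (𝓝 (gam k)) := by
  have := Phi_lim' hk 1 1
  refine this.congr fun n => ?_
  unfold uF
  rw [mul_one, Nat.floor_natCast]
  rfl

lemma gam_pos_lt (hk : 2 ≤ k) : 0 < gam k ∧ gam k < 1 := by
  obtain ⟨γ, h0, h1, h2, _⟩ := stmt_GAM k hk
  have := tendsto_nhds_unique (gam_eq (by omega)) h2
  rw [this]
  exact ⟨h0, h1⟩

lemma gam_pos (hk : 2 ≤ k) : 0 < gam k := (gam_pos_lt hk).1

lemma gam_lt (hk : 2 ≤ k) : gam k < 1 := (gam_pos_lt hk).2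

lemma al_pos (hk : 2 ≤ k) : 0 < al k := by
  have := gam_pos hk
  unfold al
  linarith

end Pool.Agent.LCSV
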