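import Pool.Agent.Work.MP_bec1e1_lv_helper15.PlantInterface

/-!
# The final word of the planting is exactly uniform (block A_UNIF)
-/

set_option autoImplicit false
set_option maxHeartbeats 400000

open Filter Topology
open scoped BigOperators

namespace Pool.Agent.LCSV

open Pool.Agent.LCSE

namespace UnifB

variable {k : ℕ}

lemma Exc_mul (s : ℕ) (g : List (Fin k) → ℝ) (T : ℕ) (c : ℝ) (f : List (List (Fin k)) → ℝ) :
    Exc k s g T (fun xs => c * f xs) = c * Exc k s g T f := by
  induction T generalizing f with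
  | zero => rfl
  | succ T ih =>
    simp only [Exc, ih]
    rw [← Ex_const_mul]
    exact Ex_congr fun w _ => by ring

lemma Exc_Ex (s : ℕ) (g : List (Fin k) → ℝ) (T n : ℕ)
    (f : List (List (Fin k)) → List (Fin k) → ℝ) :
    Exc k s g T (fun xs => Ex k n fun w => f xs w) =
      Ex k n fun w => Exc k s g T fun xs => f xs w := by
  induction T generalizing f with
  | zero => rfl
  | succ T ih =>
    simp only [Exc, ih]
    rw [← Ex_comm]
    exact Ex_congr fun w _ => by rw [← Ex_const_mul]

lemma EB_mul (θ : ℝ) (T : ℕ) (c : ℝ) (f : List Bool → ℝ) :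
    EB θ T (fun bs => c * f bs) = c * EB θ T f := by
  induction T generalizing f with
  | zero => rfl
  | succ T ih =>
    simp only [EB, ih]
    ring

lemma EB_Ex (θ : ℝ) (T n : ℕ) (f : List Bool → List (Fin k) → ℝ) :
    EB θ T (fun bs => Ex k n fun w => f bs w) = Ex k n fun w => EB θ T fun bs => f bs w := by
  induction T generalizing f with
  | zero => rfl
  | succ T ih =>
    simp only [EB, ih]
    rw [Ex_add, Ex_const_mul, Ex_const_mul]

lemma gmin_mean (hk : 0 < k) {l : ℕ} {θ : ℝ} {g₁ : List (Fin k) → ℝ} (hθ : θ < 1)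
    (hg : IsDens k l g₁) : Ex k l (gmin θ g₁) = 1 := by
  have h : Ex k l (gmin θ g₁) = Ex k l (fun w => (1 + (-θ) * g₁ w) * (1 - θ)⁻¹) :=
    Ex_congr fun w _ => by unfold gmin; rw [div_eq_mul_inv]; ring
  rw [h, Ex_mul_const, Ex_add, Ex_const hk, Ex_const_mul, hg.one, mul_one, ← sub_eq_add_neg]
  exact mul_inv_cancel₀ (by linarith)

end UnifB

open UnifB in
theorem stmt_UNIF : Stmt_UNIF := by
  intro k l e T θ g₁ f hk hθ hg
  have hm := gmin_mean hk hθ hg
  unfold Exs
  induction T generalizing f with
  | zero => simp [EB, Exc, splice]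
  | succ T ih =>
    -- value of a labelled first cell
    have h1 : EB θ T (fun bs => Exc k l (gmin θ g₁) (T + 1) fun xs => Exc k l g₁ (T + 1) fun cs =>
        Exc k e (fun _ => 1) (T + 1) fun zs => f (splice (true :: bs) xs cs zs)) =
        Ex k l (fun c => g₁ c * Ex k (T * (l + e) + e) fun w => f (c ++ w)) := by
      have hin : (Ex k l fun c => g₁ c * Ex k e fun z => EB θ T fun bs =>
          Exc k l (gmin θ g₁) T fun xs => Exc k l g₁ T fun cs =>
            Exc k e (fun _ => 1) T fun zs => f (c ++ z ++ splice bs xs cs zs)) =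
          Ex k l (fun c => g₁ c * Ex k (T * (l + e) + e) fun w => f (c ++ w)) := by
        refine Ex_congr fun c _ => ?_
        congr 1
        rw [add_comm (T * (l + e)), Ex_append]
        refine Ex_congr fun z _ => ?_
        rw [ih (fun w => f (c ++ z ++ w))]
        exact Ex_congr fun w _ => by rw [List.append_assoc]
      simp only [Exc, splice, Exc_mul, Exc_Ex, EB_mul, EB_Ex, one_mul]
      rw [hin, Ex_mul_const, hm, one_mul]
    have h2 : EB θ T (fun bs => Exc k l (gmin θ g₁) (T + 1) fun xs => Exc k l g₁ (T + 1) fun cs =>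
        Exc k e (fun _ => 1) (T + 1) fun zs => f (splice (false :: bs) xs cs zs)) =
        Ex k l (fun x => gmin θ g₁ x * Ex k (T * (l + e) + e) fun w => f (x ++ w)) := by
      simp only [Exc, splice, Exc_mul, Exc_Ex, EB_mul, EB_Ex, one_mul]
      refine Ex_congr fun x _ => ?_
      congr 1
      rw [Ex_mul_const, hg.one, one_mul, Ex_append, Ex_comm]
      refine Ex_congr fun z _ => ?_
      have := ih (fun w => f (x ++ w ++ z))
      rw [this]
      exact Ex_congr fun w _ => by rw [List.append_assoc]
    show θ * _ + (1 - θ) * _ = _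
    rw [h1, h2, ← Ex_const_mul, ← Ex_const_mul, ← Ex_add]
    rw [show (T + 1) * (l + e) = l + (T * (l + e) + e) by ring, Ex_append]
    refine Ex_congr fun x _ => ?_
    have hne : (1 - θ) ≠ 0 := by linarith
    unfold gmin
    field_simp
    ring

end Pool.Agent.LCSV
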