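import Pool.Agent.Work.MP_bec1e1_lv_helper14.AV

/-!
# FIN, block T2: with positive probability some near-tie of level `s` has an atypical window

`stmt_T2 : Stmt_EQS → Stmt_MEAN → Stmt_PE → Stmt_T2D → Stmt_T2`.
-/

set_option autoImplicit false
set_option maxHeartbeats 400000

open Filter Topology
open scoped BigOperators

namespace Pool.Agent.LCSV

open Pool.Agent.LCSE

noncomputable section

namespace T2

variable {k : ℕ}

open AVB

/-- mean value with more uniform rows is larger -/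
lemma Ex_insert_mono (hk : 0 < k) (m n : ℕ) (x₁ x₂ y : List (Fin k)) :
    (Ex k m fun r => (L (x₁ ++ r ++ x₂) y : ℝ)) ≤
      Ex k (m + n) fun r => (L (x₁ ++ r ++ x₂) y : ℝ) := by
  rw [Ex_append]
  refine Ex_mono fun r _ => ?_
  have h : (L (x₁ ++ r ++ x₂) y : ℝ) = Ex k n fun _ => (L (x₁ ++ r ++ x₂) y : ℝ) :=
    (Ex_const hk n _).symm
  rw [h]
  refine Ex_mono fun r' _ => ?_
  have := L_insert_ge (x₁ ++ r) r' x₂ y
  have e : x₁ ++ (r ++ r') ++ x₂ = x₁ ++ r ++ r' ++ x₂ := by simp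
  rw [e]
  exact_mod_cast this

lemma Ex_insert_ge (hk : 0 < k) (n : ℕ) (x₁ x₂ y : List (Fin k)) :
    (L (x₁ ++ x₂) y : ℝ) ≤ Ex k n fun r => (L (x₁ ++ r ++ x₂) y : ℝ) := by
  have h : (L (x₁ ++ x₂) y : ℝ) = Ex k n fun _ => (L (x₁ ++ x₂) y : ℝ) := (Ex_const hk n _).symm
  rw [h]
  exact Ex_mono fun r _ => by exact_mod_cast L_insert_ge x₁ r x₂ y

end T2

open AVB T2 in
/-- **T2** -/
theorem stmt_T2 (h1 : Stmt_EQS) (h2 : Stmt_MEAN) (h3 : Stmt_PE) (h4 : Stmt_T2D) : Stmt_T2 := by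
  intro k C p q Pl Pu w o
  have hk2 := w.hk
  have hk : 0 < k := by omega
  obtain ⟨ε₀, η, hε₀, hη, hT2D⟩ := h4 k C p q Pl Pu w
  have hPu : 0 < Pu := w.pr.pos.trans_le w.pr.le
  obtain ⟨c₂, hc₂d⟩ : ∃ c₂ : ℝ, c₂ = (η / 2) / (Pu + η) := ⟨_, rfl⟩
  have hPη : 0 < Pu + η := by linarith
  have hc₂ : 0 < c₂ := by rw [hc₂d]; positivity
  have hc₂e : c₂ * (Pu + η) = η / 2 := by rw [hc₂d]; field_simp
  obtain ⟨ε, hεd⟩ : ∃ ε : ℝ, ε = min ε₀ (η * c₂ / 8) := ⟨_, rfl⟩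
  have hε : 0 < ε := by rw [hεd]; exact lt_min hε₀ (by positivity)
  have hεε₀ : ε ≤ ε₀ := by rw [hεd]; exact min_le_left _ _
  have hε8 : ε ≤ η * c₂ / 8 := by rw [hεd]; exact min_le_right _ _
  obtain ⟨e, hed⟩ : ∃ e : ℝ, e = min ε (c₂ / 4) := ⟨_, rfl⟩
  have he : 0 < e := by rw [hed]; exact lt_min hε (by positivity)
  have heε : e ≤ ε := by rw [hed]; exact min_le_left _ _
  have he4 : e ≤ c₂ / 4 := by rw [hed]; exact min_le_right _ _
  refine ⟨η * c₂ / (4 * (1 + η)), ε, by positivity, hε, ?_⟩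
  have hEQS := h1 k C p q Pl Pu w o (η * c₂ / 8) (by positivity)
  have hMEAN := h2 k C p q Pl Pu w (η / 4) (by positivity) 0
  have hPE := h3 k C p q Pl Pu w e he 1 1
  have hthm : ∀ᶠ s : ℕ in atTop, 10 * thm k s ≤ η / 4 := by
    have ht : Tendsto (fun s : ℕ => thm k s) atTop (𝓝 0) := by
      have h0 : ∀ s : ℕ, thm k s ≤ (1 / 2 : ℝ) ^ s := by
        intro s
        unfold thm
        have h2 : (2 : ℝ) ^ s ≤ (k : ℝ) ^ s :=
          pow_le_pow_left₀ (by norm_num) (by exact_mod_cast hk2) s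
        have h3 : (0 : ℝ) < 2 ^ s := by positivity
        rw [one_div_pow]
        exact div_le_div_of_nonneg_left (by norm_num) h3 (by linarith)
      exact squeeze_zero (fun s => (thm_pos hk s).le) h0
        (tendsto_pow_atTop_nhds_zero_of_lt_one (by norm_num) (by norm_num))
    have h5 : Tendsto (fun s : ℕ => 10 * thm k s) atTop (𝓝 (10 * 0)) := ht.const_mul 10
    rw [mul_zero] at h5
    exact (h5.eventually_lt_const (show (0 : ℝ) < η / 4 by positivity)).mono fun s hs => hs.le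
  filter_upwards [hEQS, hMEAN, hPE, hthm, eventually_ge_atTop 1] with s hE hM hP hth hs
  obtain ⟨θ, hθ0, hθ, hE⟩ := hE
  refine ⟨θ, hθ0, hθ, ?_⟩
  have hs0 : (1 : ℝ) ≤ s := by exact_mod_cast hs
  have hsp : (0 : ℝ) < s := by linarith
  have hNN : 1 ≤ NN k s := Nat.one_le_pow _ _ hk
  obtain ⟨N, hN⟩ : ∃ N, N = NN k s - 1 := ⟨_, rfl⟩
  have hN1 : N + 1 = NN k s := by omega
  have hM' := hM o θ hθ0 hθ (NN k s) (by omega) (by omega)
  have hP' := hP o θ hθ0 hθ N (by omega) (by omega)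
  rw [← hN] at hE ⊢
  set b := bb k s with hb
  -- the functions
  set A1 : List (Fin k) → List (Fin k) → List (Fin k) → List (Fin k) → ℝ :=
    fun x₁ _ x₂ y => Ex k (1 * s) fun r => (L (x₁ ++ r ++ x₂) y : ℝ) with hA1
  set A2 : List (Fin k) → List (Fin k) → List (Fin k) → List (Fin k) → ℝ :=
    fun x₁ _ x₂ y => Ex k (2 * s) fun r => (L (x₁ ++ r ++ x₂) y : ℝ) with hA2
  set B1 : List (Fin k) → List (Fin k) → List (Fin k) → List (Fin k) → ℝ :=
    fun x₁ _ x₂ y => (L (x₁ ++ List.replicate s o ++ x₂) y : ℝ) with hB1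
  set EE : List (Fin k) → List (Fin k) → List (Fin k) → List (Fin k) → ℝ :=
    fun x₁ _ x₂ y => ind (∃ g ≤ y.length, NT x₁ x₂ y s g ∧
      ¬ Typ k s o ε ((y.drop g).take (2 * k * s))) with hEE
  set FF : List (Fin k) → List (Fin k) → List (Fin k) → List (Fin k) → ℝ :=
    fun x₁ z x₂ y => ind (A1 x₁ z x₂ y + (Pu + η) * s ≤ A2 x₁ z x₂ y) with hFF
  set PP : List (Fin k) → List (Fin k) → List (Fin k) → List (Fin k) → ℝ :=
    fun x₁ _ x₂ y => ind (
      ((Ex k (1 * s) fun r => (L (x₁ ++ r ++ x₂) y : ℝ)) <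
        L (x₁ ++ x₂) y + (Pl - e) * ((1 : ℕ) * s)) ∨
      ((L (x₁ ++ x₂) y : ℝ) + (Pu + e) * ((1 : ℕ) * s) <
        Ex k (1 * s) fun r => (L (x₁ ++ r ++ x₂) y : ℝ))) with hPP
  -- pointwise inequality
  have hpt : ∀ x₁ r x₂ y : List (Fin k), r.length = 0 * s → y.length = b →
      η * s - (η * s) * EE x₁ r x₂ y - (η * s) * FF x₁ r x₂ y - (η * s) * PP x₁ r x₂ y -
        2 * ε * s - s * EE x₁ r x₂ y ≤ A1 x₁ r x₂ y - B1 x₁ r x₂ y := by
    intro x₁ r x₂ y _ _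
    have hηs : 0 < η * s := by positivity
    have hF0 : 0 ≤ FF x₁ r x₂ y := ind_nonneg _
    have hP0 : 0 ≤ PP x₁ r x₂ y := ind_nonneg _
    by_cases hev : ∃ g ≤ y.length, NT x₁ x₂ y s g ∧
        ¬ Typ k s o ε ((y.drop g).take (2 * k * s))
    · have e1 : EE x₁ r x₂ y = 1 := ind_of hev
      rw [e1]
      have h5 : (L (x₁ ++ x₂) y : ℝ) ≤ A1 x₁ r x₂ y := Ex_insert_ge hk _ _ _ _
      have h6 : (B1 x₁ r x₂ y : ℝ) ≤ L (x₁ ++ x₂) y + s := by
        have := L_insert_le x₁ (List.replicate s o) x₂ y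
        rw [List.length_replicate] at this
        show (L (x₁ ++ List.replicate s o ++ x₂) y : ℝ) ≤ _
        exact_mod_cast this
      have h7 : 0 ≤ η * s * FF x₁ r x₂ y := by positivity
      have h8 : 0 ≤ η * s * PP x₁ r x₂ y := by positivity
      have h9 : 0 ≤ 2 * ε * s := by positivity
      linarith
    · have e1 : EE x₁ r x₂ y = 0 := ind_of_not hev
      rw [e1]
      have hty : ∀ g ≤ y.length, NT x₁ x₂ y s g →
          Typ k s o ε ((y.drop g).take (2 * k * s)) := by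
        intro g hg hnt
        by_contra hcon
        exact hev ⟨g, hg, hnt, hcon⟩
      obtain ⟨h5, h6⟩ := hT2D ε hε hεε₀ s hs o x₁ x₂ y hty
      have ha : (Ex k s fun r => (L (x₁ ++ r ++ x₂) y : ℝ)) = A1 x₁ r x₂ y := by
        rw [hA1]; simp only [one_mul]
      rw [ha] at h5 h6
      change B1 x₁ r x₂ y - 2 * ε * s ≤ A1 x₁ r x₂ y at h5
      have h9 : 0 ≤ 2 * ε * s := by positivity
      have h7 : 0 ≤ η * s * FF x₁ r x₂ y := by positivity
      have h8 : 0 ≤ η * s * PP x₁ r x₂ y := by positivity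
      rcases h6 with h6 | h6 | h6
      · change B1 x₁ r x₂ y + η * s ≤ A1 x₁ r x₂ y at h6
        linarith
      · have e2 : FF x₁ r x₂ y = 1 := ind_of h6
        rw [e2]
        linarith
      · have e2 : PP x₁ r x₂ y = 1 := by
          refine ind_of (Or.inl ?_)
          change A1 x₁ r x₂ y < _
          refine h6.trans_le ?_
          have : (Pl - ε) * s ≤ (Pl - e) * ((1 : ℕ) * s) := by
            rw [Nat.cast_one, one_mul]
            exact mul_le_mul_of_nonneg_right (by linarith) hsp.le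
          linarith
        rw [e2]
        linarith
  have hAV := AV_mono (o := o) (N := N) (b := b) (j := 0) hk hθ0 hθ hpt
  simp only [AV_sub, AV_const_mul, AV_const hk] at hAV
  -- F
  have hFpt : ∀ x₁ r x₂ y : List (Fin k), r.length = 0 * s → y.length = b →
      ((Pu + η) * s) * FF x₁ r x₂ y ≤ A2 x₁ r x₂ y - A1 x₁ r x₂ y := by
    intro x₁ r x₂ y _ _
    have h5 : A1 x₁ r x₂ y ≤ A2 x₁ r x₂ y := by
      have := Ex_insert_mono hk s s x₁ x₂ y
      rw [hA1, hA2]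
      simp only [one_mul, two_mul]
      exact this
    by_cases h6 : A1 x₁ r x₂ y + (Pu + η) * s ≤ A2 x₁ r x₂ y
    · have e2 : FF x₁ r x₂ y = 1 := ind_of h6
      rw [e2]; linarith
    · have e2 : FF x₁ r x₂ y = 0 := ind_of_not h6
      rw [e2]; linarith
  have hAF := AV_mono (o := o) (N := N) (b := b) (j := 0) hk hθ0 hθ hFpt
  simp only [AV_sub, AV_const_mul] at hAF
  have hu1 := AV_unif_sub (o := o) hk hθ0 hθ 1 N b
  have hu2 := AV_unif_sub (o := o) hk hθ0 hθ 2 N b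
  have hu1' : |AV k s o θ 0 N b A1 - EN k s o θ (N + 1) b| ≤ 2 * θ * (1 : ℕ) * ((1 : ℕ) * s) := hu1
  have hu2' : |AV k s o θ 0 N b A2 - EN k s o θ (N + 2) b| ≤ 2 * θ * (2 : ℕ) * ((2 : ℕ) * s) := hu2
  rw [← hN1] at hM'
  have hu1a := (abs_le.mp hu1').1
  have hu2a := (abs_le.mp hu2').2
  push_cast at hu1a hu2a
  have hθs : 10 * θ * s ≤ η / 4 * s := by
    refine mul_le_mul_of_nonneg_right ?_ hsp.le
    linarith
  have hM'' : EN k s o θ (N + 2) b - EN k s o θ (N + 1) b ≤ (Pu + η / 4) * s := hM'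
  have hF : ((Pu + η) * s) * AV k s o θ 0 N b FF ≤ (Pu + η / 2) * s := by
    nlinarith [hAF, hu1a, hu2a, hM'', hθs]
  have hF' : (Pu + η) * AV k s o θ 0 N b FF ≤ Pu + η / 2 := by
    have h5 : ((Pu + η) * AV k s o θ 0 N b FF) * s ≤ (Pu + η / 2) * s := by linarith [hF]
    exact le_of_mul_le_mul_right h5 hsp
  have hF3 : AV k s o θ 0 N b FF ≤ 1 - c₂ := by
    have h5 : (Pu + η) * AV k s o θ 0 N b FF ≤ (Pu + η) * (1 - c₂) := by nlinarith [hF', hc₂e]
    exact le_of_mul_le_mul_left h5 hPη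
  -- P
  have hP3 : AV k s o θ 0 N b PP ≤ c₂ / 4 := hP'.trans he4
  -- EQS
  have hE3 : AV k s o θ 0 N b A1 - AV k s o θ 0 N b B1 ≤ η * c₂ / 8 * s := by
    rw [← AV_sub]
    have h5 : AV k s o θ 0 N b (fun x₁ r x₂ y => A1 x₁ r x₂ y - B1 x₁ r x₂ y) ≤ η * c₂ / 8 := by
      refine le_trans (le_of_eq ?_) hE
      refine AV_congr hk hθ0 hθ fun x₁ r x₂ y _ _ => ?_
      rw [hA1, hB1]
      simp only [one_mul]
    refine h5.trans ?_
    have : 0 ≤ η * c₂ / 8 := by positivity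
    nlinarith
  -- conclusion
  have hfin : η * c₂ ≤ AV k s o θ 0 N b EE * (4 * (1 + η)) := by
    have hx : η * s * AV k s o θ 0 N b FF ≤ η * s * (1 - c₂) :=
      mul_le_mul_of_nonneg_left hF3 (by positivity)
    have hy : η * s * AV k s o θ 0 N b PP ≤ η * s * (c₂ / 4) :=
      mul_le_mul_of_nonneg_left hP3 (by positivity)
    have hz : 2 * ε * s ≤ 2 * (η * c₂ / 8) * s := by
      refine mul_le_mul_of_nonneg_right ?_ hsp.le
      linarith
    have h5 : η * c₂ * s ≤ (AV k s o θ 0 N b EE * (4 * (1 + η))) * s := by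
      nlinarith [hAV, hx, hy, hz, hE3, mul_pos (mul_pos hη hc₂) hsp]
    exact le_of_mul_le_mul_right h5 hsp
  rw [div_le_iff₀ (by positivity)]
  exact hfin

end

end Pool.Agent.LCSV
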