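import Pool.Agent.Work.MP_bec1e1_FIN_h39.Interface
import Pool.Agent.Work.MP_bec1e1_lv_h99.EXC

/-!
# API for the average `AV` over the environment (FIN)
-/

set_option autoImplicit false
set_option maxHeartbeats 400000

open Filter Topology
open scoped BigOperators

namespace Pool.Agent.LCSV

open Pool.Agent.LCSE

noncomputable section

namespace AVB

variable {k s : ℕ} {o : Fin k} {θ : ℝ}

lemma thm_pos (hk : 0 < k) (s : ℕ) : 0 < thm k s := by unfold thm; positivity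

lemma theta_mul_le (hk : 0 < k) (hθ : θ ≤ thm k s) : θ * (k : ℝ) ^ s ≤ 1 / 2 := by
  have hp : (0 : ℝ) < (k : ℝ) ^ s := by positivity
  calc θ * (k : ℝ) ^ s ≤ thm k s * (k : ℝ) ^ s := mul_le_mul_of_nonneg_right hθ hp.le
    _ = 1 / 2 := by unfold thm; field_simp

lemma gth_nn (hk : 0 < k) (hθ0 : 0 ≤ θ) (hθ : θ ≤ thm k s) (w : List (Fin k)) :
    0 ≤ gth k s o θ w :=
  gth_nonneg hθ0 ((theta_mul_le hk hθ).trans (by norm_num)) w

lemma AV_mono (hk : 0 < k) (hθ0 : 0 ≤ θ) (hθ : θ ≤ thm k s) {j N b : ℕ}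
    {Φ Ψ : List (Fin k) → List (Fin k) → List (Fin k) → List (Fin k) → ℝ}
    (h : ∀ x₁ r x₂ y, r.length = j * s → y.length = b → Φ x₁ r x₂ y ≤ Ψ x₁ r x₂ y) :
    AV k s o θ j N b Φ ≤ AV k s o θ j N b Ψ := by
  unfold AV
  apply div_le_div_of_nonneg_right _ (by positivity)
  refine Finset.sum_le_sum fun p _ => ?_
  have hg : ∀ w : List (Fin k), w.length = s → 0 ≤ gth k s o θ w := fun w _ => gth_nn hk hθ0 hθ w
  refine Exc_mono hg fun xs₁ _ => Exc_mono hg fun rs hrs => Exc_mono hg fun xs₂ _ =>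
    Ex_mono fun y hy => h _ _ _ _ hrs.flatten_length hy

lemma AV_congr (hk : 0 < k) (hθ0 : 0 ≤ θ) (hθ : θ ≤ thm k s) {j N b : ℕ}
    {Φ Ψ : List (Fin k) → List (Fin k) → List (Fin k) → List (Fin k) → ℝ}
    (h : ∀ x₁ r x₂ y, r.length = j * s → y.length = b → Φ x₁ r x₂ y = Ψ x₁ r x₂ y) :
    AV k s o θ j N b Φ = AV k s o θ j N b Ψ :=
  le_antisymm (AV_mono hk hθ0 hθ fun _ _ _ _ h1 h2 => (h _ _ _ _ h1 h2).le)
    (AV_mono hk hθ0 hθ fun _ _ _ _ h1 h2 => (h _ _ _ _ h1 h2).ge)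

lemma AV_add {j N b : ℕ}
    (Φ Ψ : List (Fin k) → List (Fin k) → List (Fin k) → List (Fin k) → ℝ) :
    AV k s o θ j N b (fun x₁ r x₂ y => Φ x₁ r x₂ y + Ψ x₁ r x₂ y) =
      AV k s o θ j N b Φ + AV k s o θ j N b Ψ := by
  unfold AV
  rw [← add_div, ← Finset.sum_add_distrib]
  congr 1
  refine Finset.sum_congr rfl fun p _ => ?_
  simp only [Ex_add, Exc_add]

lemma AV_const_mul {j N b : ℕ} (c : ℝ)
    (Φ : List (Fin k) → List (Fin k) → List (Fin k) → List (Fin k) → ℝ) :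
    AV k s o θ j N b (fun x₁ r x₂ y => c * Φ x₁ r x₂ y) = c * AV k s o θ j N b Φ := by
  unfold AV
  rw [← mul_div_assoc, Finset.mul_sum]
  congr 1
  refine Finset.sum_congr rfl fun p _ => ?_
  simp only [Ex_const_mul, Exc_const_mul]

lemma AV_sub {j N b : ℕ}
    (Φ Ψ : List (Fin k) → List (Fin k) → List (Fin k) → List (Fin k) → ℝ) :
    AV k s o θ j N b (fun x₁ r x₂ y => Φ x₁ r x₂ y - Ψ x₁ r x₂ y) =
      AV k s o θ j N b Φ - AV k s o θ j N b Ψ := by
  have h := AV_add (s := s) (o := o) (θ := θ) (j := j) (N := N) (b := b) Φ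
    (fun x₁ r x₂ y => (-1) * Ψ x₁ r x₂ y)
  rw [AV_const_mul] at h
  have e : (fun x₁ r x₂ y => Φ x₁ r x₂ y + (-1) * Ψ x₁ r x₂ y) =
      fun x₁ r x₂ y => Φ x₁ r x₂ y - Ψ x₁ r x₂ y := by
    funext x₁ r x₂ y; ring
  rw [e] at h
  rw [h]; ring

lemma AV_const (hk : 0 < k) {j N b : ℕ} (c : ℝ) :
    AV k s o θ j N b (fun _ _ _ _ => c) = c := by
  unfold AV
  simp only [Ex_const hk, Exc_const (Ex_gth hk s o θ), Finset.sum_const, Finset.card_range,
    nsmul_eq_mul]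
  push_cast
  field_simp

lemma AV_nonneg (hk : 0 < k) (hθ0 : 0 ≤ θ) (hθ : θ ≤ thm k s) {j N b : ℕ}
    {Φ : List (Fin k) → List (Fin k) → List (Fin k) → List (Fin k) → ℝ}
    (h : ∀ x₁ r x₂ y, r.length = j * s → y.length = b → 0 ≤ Φ x₁ r x₂ y) :
    0 ≤ AV k s o θ j N b Φ := by
  have := AV_mono (o := o) (N := N) hk hθ0 hθ (Φ := fun _ _ _ _ => 0) (Ψ := Φ) h
  rwa [AV_const hk] at this

/-- the inserted cells as an inner mean -/
lemma AV_inner {j N b : ℕ} (Φ : List (Fin k) → List (Fin k) → List (Fin k) → List (Fin k) → ℝ) :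
    AV k s o θ j N b Φ = AV k s o θ 0 N b (fun x₁ _ x₂ y =>
      Exc k s (gth k s o θ) j fun rs => Φ x₁ rs.flatten x₂ y) := by
  unfold AV
  congr 1
  refine Finset.sum_congr rfl fun p _ => ?_
  refine Exc_congr fun xs₁ _ => ?_
  rw [Exc_zero, Exc_comm]
  refine Exc_congr fun xs₂ _ => ?_
  rw [Ex_Exc_comm]

/-- the mean LCS with `j` inserted cells -/
lemma AV_L (j N b : ℕ) :
    AV k s o θ j N b (fun x₁ r x₂ y => (L (x₁ ++ r ++ x₂) y : ℝ)) = EN k s o θ (N + j) b := by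
  unfold AV
  have h : ∀ p ∈ Finset.range (N + 1), (Exc k s (gth k s o θ) p fun xs₁ =>
      Exc k s (gth k s o θ) j fun rs => Exc k s (gth k s o θ) (N - p) fun xs₂ =>
        Ex k b fun y => (L (xs₁.flatten ++ rs.flatten ++ xs₂.flatten) y : ℝ)) =
      EN k s o θ (N + j) b := by
    intro p hp
    have hp' : p ≤ N := Nat.lt_succ_iff.mp (Finset.mem_range.mp hp)
    unfold EN
    rw [show N + j = p + (j + (N - p)) by omega, Exc_append]
    refine Exc_congr fun xs₁ _ => ?_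
    rw [Exc_append]
    refine Exc_congr fun rs _ => Exc_congr fun xs₂ _ => Ex_congr fun y _ => ?_
    rw [List.flatten_append, List.flatten_append, List.append_assoc]
  rw [Finset.sum_congr rfl h, Finset.sum_const, Finset.card_range, nsmul_eq_mul]
  push_cast
  field_simp

/-! ### tilted versus uniform cells -/

lemma Ex_abs_gth (hk : 0 < k) (hθ0 : 0 ≤ θ) :
    (Ex k s fun w => |gth k s o θ w - 1|) ≤ 2 * θ := by
  have h : ∀ w : List (Fin k), w.length = s →
      |gth k s o θ w - 1| ≤ θ + (θ * (k : ℝ) ^ s) * ind (w = List.replicate s o) := by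
    intro w _
    unfold gth
    have h1 : 0 ≤ θ * (k : ℝ) ^ s * ind (w = List.replicate s o) :=
      mul_nonneg (by positivity) (ind_nonneg _)
    rw [abs_le]
    constructor <;> linarith
  refine (Ex_mono h).trans ?_
  rw [Ex_add, Ex_const hk, Ex_const_mul]
  have h2 := Ex_ind_eq' (List.replicate s o)
  rw [List.length_replicate] at h2
  rw [h2]
  have hk' : (k : ℝ) ≠ 0 := by positivity
  rw [mul_assoc, ← mul_pow, mul_inv_cancel₀ hk', one_pow]
  linarith

lemma Exc_gth_sub (hk : 0 < k) (hθ0 : 0 ≤ θ) (hθ : θ ≤ thm k s) (T : ℕ) {M : ℝ}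
    {f : List (List (Fin k)) → ℝ} (hM : 0 ≤ M) (h : ∀ l, IsCells s T l → |f l| ≤ M) :
    |Exc k s (gth k s o θ) T f - Exs k s T f| ≤ 2 * θ * T * M := by
  induction T generalizing f with
  | zero => simp
  | succ T ih =>
    have hg : ∀ w : List (Fin k), w.length = s → 0 ≤ gth k s o θ w := fun w _ => gth_nn hk hθ0 hθ w
    rw [Exc_succ, Exs_succ]
    have e : (Ex k s fun w => gth k s o θ w * Exc k s (gth k s o θ) T fun l => f (w :: l)) -
        (Ex k s fun w => Exs k s T fun l => f (w :: l)) =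
        (Ex k s fun w => (gth k s o θ w - 1) * Exc k s (gth k s o θ) T fun l => f (w :: l)) +
        Ex k s fun w => ((Exc k s (gth k s o θ) T fun l => f (w :: l)) -
          Exs k s T fun l => f (w :: l)) := by
      rw [← Ex_sub, ← Ex_add]
      exact Ex_congr fun w _ => by ring
    rw [e]
    have h1 : |Ex k s fun w => (gth k s o θ w - 1) * Exc k s (gth k s o θ) T fun l => f (w :: l)| ≤
        2 * θ * M := by
      refine (Ex_abs_le _ _).trans ?_
      calc (Ex k s fun w => |(gth k s o θ w - 1) * Exc k s (gth k s o θ) T fun l => f (w :: l)|)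
          ≤ Ex k s fun w => |gth k s o θ w - 1| * M := by
            refine Ex_mono fun w hw => ?_
            rw [abs_mul]
            refine mul_le_mul_of_nonneg_left ?_ (abs_nonneg _)
            refine (Exc_abs_le hg T _).trans ?_
            exact Exc_le_const hg (Ex_gth hk s o θ) fun l hl => h _ (isCells_cons.mpr ⟨hw, hl⟩)
        _ = (Ex k s fun w => |gth k s o θ w - 1|) * M := Ex_mul_const _ _ _
        _ ≤ 2 * θ * M := mul_le_mul_of_nonneg_right (Ex_abs_gth hk hθ0) hM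
    have h2 : |Ex k s fun w => ((Exc k s (gth k s o θ) T fun l => f (w :: l)) -
          Exs k s T fun l => f (w :: l))| ≤ 2 * θ * T * M := by
      refine (Ex_abs_le _ _).trans ?_
      exact Ex_le_const hk fun w hw => ih fun l hl => h _ (isCells_cons.mpr ⟨hw, hl⟩)
    calc _ ≤ _ := abs_add_le _ _
      _ ≤ 2 * θ * M + 2 * θ * T * M := add_le_add h1 h2
      _ = 2 * θ * ((T + 1 : ℕ) : ℝ) * M := by push_cast; ring

lemma L_insert_ge (x₁ r x₂ y : List (Fin k)) : L (x₁ ++ x₂) y ≤ L (x₁ ++ r ++ x₂) y := by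
  apply L_mono _ (List.Sublist.refl _)
  exact List.Sublist.append (List.sublist_append_left _ _) (List.Sublist.refl _)

lemma L_insert_le (x₁ r x₂ y : List (Fin k)) : L (x₁ ++ r ++ x₂) y ≤ L (x₁ ++ x₂) y + r.length := by
  obtain ⟨g, hg, h⟩ := L_append_split (x₁ ++ r) x₂ y
  obtain ⟨g', hg', h'⟩ := L_append_split x₁ r (y.take g)
  rw [h, h']
  have h1 : L r ((y.take g).drop g') ≤ r.length := L_le_left _ _
  have h2 : L x₁ ((y.take g).take g') + L x₂ (y.drop g) ≤ L (x₁ ++ x₂) y := by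
    calc L x₁ ((y.take g).take g') + L x₂ (y.drop g) ≤ L x₁ (y.take g) + L x₂ (y.drop g) :=
          Nat.add_le_add_right (L_mono (List.Sublist.refl _) (List.take_sublist _ _)) _
      _ ≤ L (x₁ ++ x₂) (y.take g ++ y.drop g) := L_append_ge _ _ _ _
      _ = _ := by rw [List.take_append_drop]
  omega

/-- uniform inserted words versus tilted inserted cells -/
lemma AV_unif_sub (hk : 0 < k) (hθ0 : 0 ≤ θ) (hθ : θ ≤ thm k s) (j N b : ℕ) :
    |AV k s o θ 0 N b (fun x₁ _ x₂ y => Ex k (j * s) fun r => (L (x₁ ++ r ++ x₂) y : ℝ)) -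
      EN k s o θ (N + j) b| ≤ 2 * θ * j * (j * s) := by
  rw [← AV_L, AV_inner (j := j) (fun x₁ r x₂ y => (L (x₁ ++ r ++ x₂) y : ℝ)), ← AV_sub]
  have hpt : ∀ x₁ r x₂ y : List (Fin k),
      |(Ex k (j * s) fun r => (L (x₁ ++ r ++ x₂) y : ℝ)) -
        Exc k s (gth k s o θ) j fun rs => (L (x₁ ++ rs.flatten ++ x₂) y : ℝ)| ≤
        2 * θ * j * (j * s) := by
    intro x₁ _ x₂ y
    have h1 : (Ex k (j * s) fun r => (L (x₁ ++ r ++ x₂) y : ℝ)) =
        (Exs k s j fun rs => ((L (x₁ ++ rs.flatten ++ x₂) y : ℝ) - L (x₁ ++ x₂) y)) +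
          L (x₁ ++ x₂) y := by
      rw [Exs_sub, Exs_const hk]
      have := Exs_flatten (k := k) s j (fun r => (L (x₁ ++ r ++ x₂) y : ℝ))
      rw [sub_add_cancel, ← this]
    have h2 : (Exc k s (gth k s o θ) j fun rs => (L (x₁ ++ rs.flatten ++ x₂) y : ℝ)) =
        (Exc k s (gth k s o θ) j fun rs =>
          ((L (x₁ ++ rs.flatten ++ x₂) y : ℝ) - L (x₁ ++ x₂) y)) + L (x₁ ++ x₂) y := by
      rw [Exc_sub, Exc_const (Ex_gth hk s o θ), sub_add_cancel]
    rw [h1, h2, add_sub_add_right_eq_sub, abs_sub_comm]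
    refine Exc_gth_sub hk hθ0 hθ j (by positivity) fun l hl => ?_
    have h3 := L_insert_ge x₁ l.flatten x₂ y
    have h4 := L_insert_le x₁ l.flatten x₂ y
    rw [hl.flatten_length] at h4
    have h3' : (L (x₁ ++ x₂) y : ℝ) ≤ L (x₁ ++ l.flatten ++ x₂) y := by exact_mod_cast h3
    have h4' : (L (x₁ ++ l.flatten ++ x₂) y : ℝ) ≤ L (x₁ ++ x₂) y + j * s := by exact_mod_cast h4
    rw [abs_of_nonneg (by linarith)]
    linarith
  rw [abs_le]
  constructor
  · have := AV_mono (o := o) (N := N) (b := b) (j := 0) hk hθ0 hθ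
      (Φ := fun _ _ _ _ => -(2 * θ * j * (j * s)))
      (Ψ := fun x₁ _ x₂ y => (Ex k (j * s) fun r => (L (x₁ ++ r ++ x₂) y : ℝ)) -
        Exc k s (gth k s o θ) j fun rs => (L (x₁ ++ rs.flatten ++ x₂) y : ℝ))
      (fun x₁ r x₂ y _ _ => (abs_le.mp (hpt x₁ r x₂ y)).1)
    rwa [AV_const hk] at this
  · have := AV_mono (o := o) (N := N) (b := b) (j := 0) hk hθ0 hθ
      (Ψ := fun _ _ _ _ => (2 * θ * j * (j * s)))
      (Φ := fun x₁ _ x₂ y => (Ex k (j * s) fun r => (L (x₁ ++ r ++ x₂) y : ℝ)) -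
        Exc k s (gth k s o θ) j fun rs => (L (x₁ ++ rs.flatten ++ x₂) y : ℝ))
      (fun x₁ r x₂ y _ _ => (abs_le.mp (hpt x₁ r x₂ y)).2)
    rwa [AV_const hk] at this

end AVB

end

end Pool.Agent.LCSV
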